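import Pool.Agent.W259.GP.Defs

set_option autoImplicit false

open MeasureTheory Finset Filter
open scoped Topology

namespace Pool.Agent.W174.GP

open Pool.Agent.W259.GP

theorem integrable_gauss (n : ℕ) (a : ℝ) (ha : 0 < a) :
    Integrable (fun y : Fin n → ℝ => Real.exp (-(∑ i, y i ^ 2) * a)) := by
  have h : (fun y : Fin n → ℝ => Real.exp (-(∑ i, y i ^ 2) * a)) =
      fun y : Fin n → ℝ => ∏ i, Real.exp (-a * y i ^ 2) := by
    funext y
    rw [← Real.exp_sum, neg_mul, sum_mul, ← sum_neg_distrib]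
    congr 1
    exact sum_congr rfl fun i _ => by ring
  rw [h]
  exact Integrable.fintype_prod (f := fun (_ : Fin n) (x : ℝ) => Real.exp (-a * x ^ 2))
    (fun _ => integrable_exp_neg_mul_sq ha)

theorem abs_nonneg_const {n : ℕ} {f : (Fin n → ℝ) → ℝ} {C : ℝ}
    (h : ∀ x, |f x| ≤ C * Real.exp (-(∑ i, x i ^ 2) / 4)) : 0 ≤ C := by
  have := (abs_nonneg _).trans (h 0)
  simpa using this

theorem cont_cons (n : ℕ) : Continuous fun p : ℝ × (Fin n → ℝ) =>
    (Fin.cons p.1 p.2 : Fin (n + 1) → ℝ) := by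
  refine continuous_pi fun i => ?_
  refine Fin.cases ?_ (fun j => ?_) i
  · simpa using continuous_fst
  · simp only [Fin.cons_succ]
    exact (continuous_apply j).comp continuous_snd

theorem sl1 : S_sl1 := by
  intro n O c χ O' c' χ' P κ' κ
  obtain ⟨C', hC'⟩ := P.h'.bound κ'
  obtain ⟨C, hC⟩ := P.h.bound κ
  have c0 := abs_nonneg_const hC
  have c0' := abs_nonneg_const hC'
  have hb : ∀ (x : ℝ) (y : Fin n → ℝ), ‖χ' κ' y * χ κ (Fin.cons x y)‖ ≤
      (C * C' * Real.exp (-x ^ 2 / 4)) * Real.exp (-(∑ i, y i ^ 2) * (1 / 2)) := by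
    intro x y
    rw [Real.norm_eq_abs, abs_mul]
    have h1 := hC' y
    have h2 := hC (Fin.cons x y)
    rw [Fin.sum_univ_succ] at h2
    simp only [Fin.cons_zero, Fin.cons_succ] at h2
    refine (mul_le_mul h1 h2 (abs_nonneg _) (by positivity)).trans (le_of_eq ?_)
    rw [show C' * Real.exp (-(∑ i, y i ^ 2) / 4) *
        (C * Real.exp (-(x ^ 2 + ∑ i : Fin n, y i ^ 2) / 4)) = C * C' *
        (Real.exp (-(∑ i, y i ^ 2) / 4) * Real.exp (-(x ^ 2 + ∑ i : Fin n, y i ^ 2) / 4)) by ring,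
      mul_assoc (C * C'), ← Real.exp_add, ← Real.exp_add]
    congr 2
    ring
  have hcont : Continuous fun p : ℝ × (Fin n → ℝ) => χ' κ' p.2 * χ κ (Fin.cons p.1 p.2) :=
    ((P.h'.cont κ').comp continuous_snd).mul ((P.h.cont κ).comp (cont_cons n))
  have hI := integrable_gauss n (1 / 2) (by norm_num)
  constructor
  · refine continuous_of_dominated (bound := fun y : Fin n → ℝ =>
      (C * C') * Real.exp (-(∑ i, y i ^ 2) * (1 / 2))) ?_ ?_ (hI.const_mul _) ?_
    · intro x
      exact (hcont.comp (Continuous.prodMk_right x)).aestronglyMeasurable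
    · intro x
      refine Eventually.of_forall fun y => (hb x y).trans ?_
      refine mul_le_mul_of_nonneg_right ?_ (Real.exp_pos _).le
      have : Real.exp (-x ^ 2 / 4) ≤ 1 := Real.exp_le_one_iff.2 (by nlinarith [sq_nonneg x])
      have := mul_le_mul_of_nonneg_left this (mul_nonneg c0 c0')
      linarith
    · exact Eventually.of_forall fun y => hcont.comp (Continuous.prodMk_left y)
  · refine ⟨C * C' * ∫ y : Fin n → ℝ, Real.exp (-(∑ i, y i ^ 2) * (1 / 2)), fun x => ?_⟩
    have h1 : ‖∫ y : Fin n → ℝ, χ' κ' y * χ κ (Fin.cons x y)‖ ≤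
        ∫ y : Fin n → ℝ, (C * C' * Real.exp (-x ^ 2 / 4)) *
          Real.exp (-(∑ i, y i ^ 2) * (1 / 2)) :=
      norm_integral_le_of_norm_le (hI.const_mul _) (Eventually.of_forall (hb x))
    rw [integral_const_mul] at h1
    unfold bb
    rw [Real.norm_eq_abs] at h1
    linarith

/-- integration of a series of products `f i y * f i y'` against `w y * w y'` -/
theorem hasSum_sq_integral {Y ι : Type*} [MeasurableSpace Y] (μ : Measure Y) [SFinite μ]
    [Countable ι] (f : ι → Y → ℝ) (hf : ∀ i, Measurable (f i)) (D : Y → ℝ) (k : Y → Y → ℝ)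
    (hD : ∀ y, HasSum (fun i => f i y ^ 2) (D y)) (hD0 : ∀ y, 0 < D y)
    (hk : ∀ y y', HasSum (fun i => f i y * f i y') (k y y')) (w : Y → ℝ) (hw : Measurable w)
    (hi : Integrable (fun y => |w y| * √(D y)) μ) :
    HasSum (fun i => (∫ y, w y * f i y ∂μ) ^ 2)
      (∫ p, w p.1 * w p.2 * k p.1 p.2 ∂(μ.prod μ)) := by
  have hbs : ∀ p : Y × Y, HasSum (fun i => |w p.1| * |w p.2| * (1 / 2 *
      (f i p.1 ^ 2 * (√(D p.2) / √(D p.1)) + f i p.2 ^ 2 * (√(D p.1) / √(D p.2)))))
      ((|w p.1| * √(D p.1)) * (|w p.2| * √(D p.2))) := by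
    intro p
    have h1 := Real.sqrt_pos.2 (hD0 p.1)
    have h2 := Real.sqrt_pos.2 (hD0 p.2)
    have e := (((hD p.1).mul_right (√(D p.2) / √(D p.1))).add
      ((hD p.2).mul_right (√(D p.1) / √(D p.2)))).mul_left (1 / 2)
    have e := e.mul_left (|w p.1| * |w p.2|)
    convert! e using 1
    have s1 : D p.1 = √(D p.1) ^ 2 := (Real.sq_sqrt (hD0 p.1).le).symm
    have s2 : D p.2 = √(D p.2) ^ 2 := (Real.sq_sqrt (hD0 p.2).le).symm
    have s3 : D p.1 * (√(D p.2) / √(D p.1)) = √(D p.1) * √(D p.2) := by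
      nth_rewrite 1 [s1]; field_simp
    have s4 : D p.2 * (√(D p.1) / √(D p.2)) = √(D p.1) * √(D p.2) := by
      nth_rewrite 1 [s2]; field_simp
    rw [s3, s4]
    ring
  have key := hasSum_integral_of_dominated_convergence (μ := μ.prod μ)
    (F := fun (i : ι) (p : Y × Y) => (w p.1 * f i p.1) * (w p.2 * f i p.2))
    (f := fun p => w p.1 * w p.2 * k p.1 p.2)
    (fun i p => |w p.1| * |w p.2| * (1 / 2 *
      (f i p.1 ^ 2 * (√(D p.2) / √(D p.1)) + f i p.2 ^ 2 * (√(D p.1) / √(D p.2)))))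
    (fun i => by
      have h1 : Measurable fun p : Y × Y => w p.1 * f i p.1 :=
        (hw.mul (hf i)).comp measurable_fst
      have h2 : Measurable fun p : Y × Y => w p.2 * f i p.2 :=
        (hw.mul (hf i)).comp measurable_snd
      exact (h1.mul h2).aestronglyMeasurable)
    (fun i => Eventually.of_forall fun p => by
      have h1 := Real.sqrt_pos.2 (hD0 p.1)
      have h2 := Real.sqrt_pos.2 (hD0 p.2)
      rw [Real.norm_eq_abs, abs_mul, abs_mul, abs_mul]
      have e : |f i p.1| * |f i p.2| ≤ 1 / 2 *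
          (f i p.1 ^ 2 * (√(D p.2) / √(D p.1)) + f i p.2 ^ 2 * (√(D p.1) / √(D p.2))) := by
        have a1 : f i p.1 ^ 2 = |f i p.1| ^ 2 := (sq_abs _).symm
        have a2 : f i p.2 ^ 2 = |f i p.2| ^ 2 := (sq_abs _).symm
        rw [a1, a2]
        have : 0 ≤ (|f i p.1| * √(D p.2) - |f i p.2| * √(D p.1)) ^ 2 /
            (√(D p.1) * √(D p.2)) := by positivity
        have e2 : (|f i p.1| * √(D p.2) - |f i p.2| * √(D p.1)) ^ 2 /
            (√(D p.1) * √(D p.2)) = |f i p.1| ^ 2 * (√(D p.2) / √(D p.1)) +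
            |f i p.2| ^ 2 * (√(D p.1) / √(D p.2)) - 2 * (|f i p.1| * |f i p.2|) := by
          field_simp
          ring
        linarith
      have := mul_le_mul_of_nonneg_left e (mul_nonneg (abs_nonneg (w p.1)) (abs_nonneg (w p.2)))
      linarith)
    (Eventually.of_forall fun p => (hbs p).summable)
    (by
      have : (fun p : Y × Y => ∑' i, |w p.1| * |w p.2| * (1 / 2 *
          (f i p.1 ^ 2 * (√(D p.2) / √(D p.1)) + f i p.2 ^ 2 * (√(D p.1) / √(D p.2)))))
          = fun p => (|w p.1| * √(D p.1)) * (|w p.2| * √(D p.2)) := by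
        funext p
        exact (hbs p).tsum_eq
      rw [this]
      exact hi.mul_prod hi)
    (Eventually.of_forall fun p => by
      have := (hk p.1 p.2).mul_left (w p.1 * w p.2)
      convert! this using 1
      funext i
      ring)
  convert! key using 1
  funext i
  rw [integral_prod_mul (fun y => w y * f i y) (fun y => w y * f i y), sq]

theorem rr_mem {c : ℝ} (hc : 0 < c) : 0 < rr c ∧ rr c < 1 := by
  have h : 1 < √(1 + 2 * c) := by
    rw [Real.lt_sqrt zero_le_one]; linarith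
  unfold rr
  refine ⟨div_pos (by linarith) (by linarith), ?_⟩
  rw [div_lt_one (by linarith)]
  linarith

theorem Lam_nonneg {m : ℕ} {c : Fin m → ℝ} (hc : ∀ j, 0 < c j) (κ : Fin m → ℕ) : 0 ≤ Lam c κ :=
  prod_nonneg fun j _ => mul_nonneg (by linarith [(rr_mem (hc j)).2])
    (pow_nonneg (rr_mem (hc j)).1.le _)

theorem KN_cons {n : ℕ} {O : Fin (n + 1) → Fin (n + 1) → ℝ} {c : Fin (n + 1) → ℝ}
    {O' : Fin n → Fin n → ℝ} {c' : Fin n → ℝ}
    (he : ∀ i l : Fin n, QM O c i.succ l.succ = QM O' c' i l) (x : ℝ) (y y' : Fin n → ℝ) :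
    KN (QM O c) (Fin.cons x y) (Fin.cons x y') = pp x * KN (QM O' c') y y' := by
  unfold KN pp
  rw [Fin.sum_univ_succ, Fin.sum_univ_succ]
  simp only [Fin.sum_univ_succ (n := n), Fin.cons_zero, Fin.cons_succ, sub_self, zero_mul,
    mul_zero, zero_add, he, sum_const_zero, add_zero]
  rw [pow_succ, show (√Real.pi)⁻¹ * Real.exp (-x ^ 2) * ((√Real.pi)⁻¹ ^ n *
    Real.exp (-(∑ i, (y i ^ 2 + y' i ^ 2)) / 2
      - (∑ i, ∑ j, (y i - y' i) * QM O' c' i j * (y j - y' j)) / 2)) =
    (√Real.pi)⁻¹ ^ n * (√Real.pi)⁻¹ * (Real.exp (-x ^ 2) *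
    Real.exp (-(∑ i, (y i ^ 2 + y' i ^ 2)) / 2
      - (∑ i, ∑ j, (y i - y' i) * QM O' c' i j * (y j - y' j)) / 2)) by ring, ← Real.exp_add]
  congr 2
  ring

theorem KN_diag {n : ℕ} (Q : Fin n → Fin n → ℝ) (y : Fin n → ℝ) :
    KN Q y y = (√Real.pi)⁻¹ ^ n * Real.exp (-(∑ i, y i ^ 2)) := by
  unfold KN
  simp only [sub_self, zero_mul, sum_const_zero, zero_div, sub_zero]
  congr 2
  rw [neg_div, sum_div]
  congr 1
  exact sum_congr rfl fun i _ => by ring

theorem sl2 : S_sl2 := by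
  intro n O c χ O' c' χ' P x F v
  -- the test function
  let w : (Fin n → ℝ) → ℝ := fun y => ∑ κ' ∈ F, v κ' * χ' κ' y
  have hwc : Continuous w := by
    refine continuous_finsetSum _ fun κ' _ => continuous_const.mul (P.h'.cont κ')
  choose C' hC' using P.h'.bound
  have c0' : ∀ κ', 0 ≤ C' κ' := fun κ' => abs_nonneg_const (hC' κ')
  have hwb : ∀ y, |w y| ≤ (∑ κ' ∈ F, |v κ'| * C' κ') * Real.exp (-(∑ i, y i ^ 2) / 4) := by
    intro y
    refine (abs_sum_le_sum_abs _ _).trans ?_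
    rw [sum_mul]
    refine sum_le_sum fun κ' _ => ?_
    rw [abs_mul, mul_assoc]
    exact mul_le_mul_of_nonneg_left (hC' κ' y) (abs_nonneg _)
  have hw0 : 0 ≤ ∑ κ' ∈ F, |v κ'| * C' κ' := sum_nonneg fun κ' _ =>
    mul_nonneg (abs_nonneg _) (c0' κ')
  have hI := integrable_gauss n (1 / 4) (by norm_num)
  have hcons : ∀ x : ℝ, Continuous fun y : Fin n → ℝ => (Fin.cons x y : Fin (n + 1) → ℝ) :=
    fun x => (cont_cons n).comp (Continuous.prodMk_right x)
  -- integrability of `w` against decaying continuous functions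
  have hwint : ∀ (g : (Fin n → ℝ) → ℝ) (M : ℝ), Continuous g → (∀ y, |g y| ≤ M) →
      Integrable (fun y => w y * g y) := by
    intro g M hg hM
    have hM0 : 0 ≤ M := (abs_nonneg _).trans (hM 0)
    refine Integrable.mono' (hI.const_mul ((∑ κ' ∈ F, |v κ'| * C' κ') * M))
      (hwc.mul hg).aestronglyMeasurable (Eventually.of_forall fun y => ?_)
    rw [Real.norm_eq_abs, abs_mul]
    refine (mul_le_mul (hwb y) (hM y) (abs_nonneg _) (by positivity)).trans (le_of_eq ?_)
    rw [show -(∑ i, y i ^ 2) / 4 = -(∑ i, y i ^ 2) * (1 / 4) by ring]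
    ring
  -- diagonal bounds
  have hDint : ∀ (D : (Fin n → ℝ) → ℝ) (M : ℝ), Continuous D → (∀ y, D y ≤ M) →
      Integrable (fun y => |w y| * √(D y)) := by
    intro D M hD hM
    have h := (hwint (fun y => √(D y)) (√M) hD.sqrt (fun y => by
      rw [abs_of_nonneg (Real.sqrt_nonneg _)]
      exact Real.sqrt_le_sqrt (hM y))).abs
    refine h.congr (Eventually.of_forall fun y => ?_)
    show |w y * √(D y)| = _
    rw [abs_mul, abs_of_nonneg (Real.sqrt_nonneg (D y))]
  have hpi : 0 < (√Real.pi)⁻¹ := by positivity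
  have hsq : ∀ {m : ℕ} (z : Fin m → ℝ), Real.exp (-(∑ i, z i ^ 2)) ≤ 1 := fun z =>
    Real.exp_le_one_iff.2 (neg_nonpos.2 (sum_nonneg fun i _ => sq_nonneg _))
  have hKc : ∀ (m : ℕ), Continuous fun z : Fin m → ℝ =>
      (√Real.pi)⁻¹ ^ m * Real.exp (-(∑ i, z i ^ 2)) := fun m => by fun_prop
  -- first expansion
  have r1 := hasSum_sq_integral (volume : Measure (Fin n → ℝ))
    (fun (κ : Fin (n + 1) → ℕ) y => √(Lam c κ) * χ κ (Fin.cons x y))
    (fun κ => (continuous_const.mul ((P.h.cont κ).comp (hcons x))).measurable)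
    (fun y => KN (QM O c) (Fin.cons x y) (Fin.cons x y))
    (fun y y' => KN (QM O c) (Fin.cons x y) (Fin.cons x y'))
    (fun y => by
      have := P.h.mehler (Fin.cons x y) (Fin.cons x y)
      convert! this using 1
      funext κ
      rw [mul_pow, Real.sq_sqrt (Lam_nonneg P.pos κ), sq (χ κ _)])
    (fun y => by rw [KN_diag]; positivity)
    (fun y y' => by
      have := P.h.mehler (Fin.cons x y) (Fin.cons x y')
      convert! this using 1
      funext κ
      have h := Real.mul_self_sqrt (Lam_nonneg P.pos κ)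
      calc _ = (√(Lam c κ) * √(Lam c κ)) * (χ κ (Fin.cons x y) * χ κ (Fin.cons x y')) := by ring
        _ = _ := by rw [h])
    w hwc.measurable
    (hDint _ ((√Real.pi)⁻¹ ^ (n + 1)) (by
      simp_rw [KN_diag]
      exact (hKc (n + 1)).comp (hcons x)) (fun y => by
      rw [KN_diag]
      have := mul_le_mul_of_nonneg_left (hsq (Fin.cons x y : Fin (n + 1) → ℝ))
        (pow_nonneg hpi.le (n + 1))
      linarith))
  have r2 := hasSum_sq_integral (volume : Measure (Fin n → ℝ))
    (fun (κ : Fin n → ℕ) y => √(Lam c' κ) * χ' κ y)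
    (fun κ => (continuous_const.mul (P.h'.cont κ)).measurable)
    (fun y => KN (QM O' c') y y)
    (fun y y' => KN (QM O' c') y y')
    (fun y => by
      have := P.h'.mehler y y
      convert! this using 1
      funext κ
      rw [mul_pow, Real.sq_sqrt (Lam_nonneg P.pos' κ), sq (χ' κ _)])
    (fun y => by rw [KN_diag]; positivity)
    (fun y y' => by
      have := P.h'.mehler y y'
      convert! this using 1
      funext κ
      have h := Real.mul_self_sqrt (Lam_nonneg P.pos' κ)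
      calc _ = (√(Lam c' κ) * √(Lam c' κ)) * (χ' κ y * χ' κ y') := by ring
        _ = _ := by rw [h])
    w hwc.measurable
    (hDint _ ((√Real.pi)⁻¹ ^ n) (by
      simp_rw [KN_diag]
      exact hKc n) (fun y => by
      rw [KN_diag]
      have := mul_le_mul_of_nonneg_left (hsq y) (pow_nonneg hpi.le n)
      linarith))
  -- boundedness of the modes
  have hbd : ∀ {m : ℕ} {f : (Fin m → ℝ) → ℝ} {C : ℝ},
      (∀ z, |f z| ≤ C * Real.exp (-(∑ i, z i ^ 2) / 4)) → ∀ z, |f z| ≤ C := by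
    intro m f C h z
    have c0 := abs_nonneg_const h
    have : Real.exp (-(∑ i, z i ^ 2) / 4) ≤ 1 := Real.exp_le_one_iff.2 (by
      have : 0 ≤ ∑ i, z i ^ 2 := sum_nonneg fun i _ => sq_nonneg _
      linarith)
    have := mul_le_mul_of_nonneg_left this c0
    linarith [h z]
  have hχ'int : ∀ (κ' : Fin n → ℕ) (g : (Fin n → ℝ) → ℝ) (M : ℝ), Continuous g →
      (∀ y, |g y| ≤ M) → Integrable (fun y => χ' κ' y * g y) := by
    intro κ' g M hg hM
    have hM0 : 0 ≤ M := (abs_nonneg _).trans (hM 0)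
    refine Integrable.mono' (hI.const_mul (C' κ' * M))
      ((P.h'.cont κ').mul hg).aestronglyMeasurable (Eventually.of_forall fun y => ?_)
    rw [Real.norm_eq_abs, abs_mul]
    refine (mul_le_mul (hC' κ' y) (hM y) (abs_nonneg _) (mul_nonneg (c0' κ')
      (Real.exp_pos _).le)).trans (le_of_eq ?_)
    rw [show -(∑ i, y i ^ 2) / 4 = -(∑ i, y i ^ 2) * (1 / 4) by ring]
    ring
  have hexp : ∀ (g : (Fin n → ℝ) → ℝ) (M : ℝ), Continuous g → (∀ y, |g y| ≤ M) →
      ∫ y, w y * g y = ∑ κ' ∈ F, v κ' * ∫ y, χ' κ' y * g y := by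
    intro g M hg hM
    have : (fun y => w y * g y) = fun y => ∑ κ' ∈ F, v κ' * (χ' κ' y * g y) := by
      funext y
      simp only [w, sum_mul]
      exact sum_congr rfl fun κ' _ => by ring
    rw [this, integral_finsetSum _ fun κ' _ => (hχ'int κ' g M hg hM).const_mul _]
    exact sum_congr rfl fun κ' _ => integral_const_mul _ _
  have t2 : HasSum (fun κ => (∫ y, w y * (√(Lam c' κ) * χ' κ y)) ^ 2)
      (∑ κ' ∈ F, Lam c' κ' * v κ' ^ 2) := by
    have : (fun κ => (∫ y, w y * (√(Lam c' κ) * χ' κ y)) ^ 2) =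
        fun κ => if κ ∈ F then Lam c' κ * v κ ^ 2 else 0 := by
      funext κ
      have e1 : ∫ y, w y * (√(Lam c' κ) * χ' κ y) = √(Lam c' κ) * ∫ y, w y * χ' κ y := by
        rw [← integral_const_mul]
        congr 1
        funext y
        ring
      rw [e1, hexp _ (C' κ) (P.h'.cont κ) (hbd (hC' κ))]
      simp only [P.h'.orth, mul_ite, mul_one, mul_zero, sum_ite_eq']
      split_ifs with hκ
      · rw [mul_pow, Real.sq_sqrt (Lam_nonneg P.pos' κ)]
      · ring
    rw [this]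
    have h0 : HasSum (fun κ => if κ ∈ F then Lam c' κ * v κ ^ 2 else 0)
        (∑ κ ∈ F, if κ ∈ F then Lam c' κ * v κ ^ 2 else 0) :=
      hasSum_sum_of_ne_finset_zero (fun b hb => by simp [hb])
    convert! h0 using 1
    exact sum_congr rfl fun κ hκ => by simp [hκ]
  have r3 := r2.unique t2
  have r4 : ∫ p : (Fin n → ℝ) × (Fin n → ℝ),
      w p.1 * w p.2 * KN (QM O c) (Fin.cons x p.1) (Fin.cons x p.2) =
      pp x * ∑ κ' ∈ F, Lam c' κ' * v κ' ^ 2 := by
    rw [← r3, ← integral_const_mul]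
    congr 1
    funext p
    rw [KN_cons P.eq]
    ring
  rw [← r4]
  convert! r1 using 1
  funext κ
  obtain ⟨C, hC⟩ := P.h.bound κ
  have e1 : ∫ y, w y * (√(Lam c κ) * χ κ (Fin.cons x y)) =
      √(Lam c κ) * ∫ y, w y * χ κ (Fin.cons x y) := by
    rw [← integral_const_mul]
    congr 1
    funext y
    ring
  rw [e1, mul_pow, Real.sq_sqrt (Lam_nonneg P.pos κ),
    hexp (fun y => χ κ (Fin.cons x y)) C ((P.h.cont κ).comp (hcons x)) (fun y => hbd hC _)]
  rfl

end Pool.Agent.W174.GP
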